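import Mathlib

/-!
Definitions for the Roudneff conjecture: oriented matroids by covector axioms, rank,
reorientation, 1-neighborly reorientations and the alternating oriented matroid.
-/

namespace Pool.Agent.P.MP_f434f5_co

/-- Composition of sign vectors. -/
def comp {E : Type*} (X Y : E → SignType) : E → SignType :=
  fun e => if X e = 0 then Y e else X e

/-- Separation set of two sign vectors. -/
def sep {E : Type*} (X Y : E → SignType) : Set E :=
  {e | X e ≠ 0 ∧ X e = - Y e}

/-- The covector axioms (L0) to (L3) of an oriented matroid. -/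
def IsOM {E : Type*} (L : Set (E → SignType)) : Prop :=
  (fun _ => 0) ∈ L ∧
  (∀ X ∈ L, (fun e => - X e) ∈ L) ∧
  (∀ X ∈ L, ∀ Y ∈ L, comp X Y ∈ L) ∧
  (∀ X ∈ L, ∀ Y ∈ L, ∀ e ∈ sep X Y,
    ∃ Z ∈ L, Z e = 0 ∧ ∀ f, f ∉ sep X Y → Z f = comp X Y f)

/-- Independent sets of the underlying matroid (whose flats are the zero sets of covectors):
no element of `B` lies in the closure of the other elements of `B`. -/
def Indep {E : Type*} (L : Set (E → SignType)) (B : Finset E) : Prop :=
  ∀ e ∈ B, ∃ X ∈ L, X e ≠ 0 ∧ ∀ f ∈ B, f ≠ e → X f = 0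

/-- The rank is the largest size of an independent set. -/
def HasRank {E : Type*} (L : Set (E → SignType)) (r : ℕ) : Prop :=
  IsGreatest {k : ℕ | ∃ B : Finset E, Indep L B ∧ B.card = k} r

/-- Reorientation on `A`. -/
def reorient {E : Type*} [DecidableEq E] (A : Finset E) (L : Set (E → SignType)) :
    Set (E → SignType) :=
  (fun X e => if e ∈ A then - X e else X e) '' L

/-- Acyclic, and every element is a vertex of the matroid polytope. -/
def OneNeighborly {E : Type*} (L : Set (E → SignType)) : Prop :=
  (fun _ => 1) ∈ L ∧ ∀ e, ∃ X ∈ L, X e = 0 ∧ ∀ f, f ≠ e → X f = 1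

/-- The number of subsets `A` whose reorientation is 1-neighborly. -/
noncomputable def numNeighborly {E : Type*} [DecidableEq E] (L : Set (E → SignType)) : ℕ :=
  Set.ncard {A : Finset E | OneNeighborly (reorient A L)}

/-- Covectors of the alternating oriented matroid of rank `r` on `n` elements, realized by the
vectors `(1, i, ..., i ^ (r - 1))` of the moment curve. -/
def alternating (r n : ℕ) : Set (Fin n → SignType) :=
  {X | ∃ c : Fin r → ℝ,
    X = fun i : Fin n => SignType.sign (∑ j : Fin r, c j * (i.val : ℝ) ^ j.val)}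

end Pool.Agent.P.MP_f434f5_co
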