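import Mathlib

/-!
Fourier analysis on the cube of subsets of a finite type: the core counting lemma.
-/

namespace Pool.Agent.P.MP_f434f5_co

open Finset

variable {E : Type*} [Fintype E] [DecidableEq E]

/-- The sign of coordinate `j` of the cube point `A`. -/
def sg (A : Finset E) (j : E) : ℚ := if j ∈ A then -1 else 1

/-- The character indexed by `K`. -/
def ch (K A : Finset E) : ℚ := ∏ j ∈ K, sg A j

/-- Fourier coefficient. -/
def fc (g : Finset E → ℚ) (K : Finset E) : ℚ := ∑ A : Finset E, g A * ch K A

/-- Flip of one coordinate. -/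
def flip (i : E) (A : Finset E) : Finset E := symmDiff A {i}

omit [Fintype E] in
lemma sg_mul_self (A : Finset E) (j : E) : sg A j * sg A j = 1 := by
  unfold sg; split_ifs <;> norm_num

omit [Fintype E] in
lemma flip_flip (i : E) (A : Finset E) : flip i (flip i A) = A := by
  unfold flip; rw [symmDiff_symmDiff_cancel_right]

omit [Fintype E] in
lemma mem_flip (i j : E) (A : Finset E) : j ∈ flip i A ↔ (if j = i then j ∉ A else j ∈ A) := by
  unfold flip
  rw [Finset.mem_symmDiff]
  by_cases h : j = i <;> simp [h]

omit [Fintype E] in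
lemma sg_flip (i j : E) (A : Finset E) :
    sg (flip i A) j = if j = i then - sg A j else sg A j := by
  unfold sg
  by_cases h : j = i <;> by_cases h2 : j ∈ A <;> simp_all [mem_flip]

omit [Fintype E] in
lemma ch_flip (i : E) (K A : Finset E) :
    ch K (flip i A) = (if i ∈ K then -1 else 1) * ch K A := by
  unfold ch
  induction K using Finset.induction_on with
  | empty => simp
  | insert a s ha ih =>
    rw [Finset.prod_insert ha, Finset.prod_insert ha, ih, sg_flip]
    by_cases h : a = i
    · subst h
      simp [ha]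
    · have h' : i ≠ a := fun hh => h hh.symm
      by_cases h2 : i ∈ s <;> simp [h, h', h2]

omit [Fintype E] in
lemma ch_mul_self (K A : Finset E) : ch K A * ch K A = 1 := by
  unfold ch
  rw [← Finset.prod_mul_distrib]
  exact Finset.prod_eq_one fun j _ => sg_mul_self A j

omit [Fintype E] in
lemma ch_ne_zero (K A : Finset E) : ch K A ≠ 0 := by
  intro h
  have := ch_mul_self K A
  rw [h] at this
  norm_num at this

omit [Fintype E] in
lemma ch_union (K M A : Finset E) (h : Disjoint K M) : ch (K ∪ M) A = ch K A * ch M A := by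
  unfold ch; rw [Finset.prod_union h]

omit [Fintype E] in
lemma prod_expand (C B A : Finset E) :
    ∏ j ∈ C, (1 + sg B j * sg A j) = ∑ M ∈ C.powerset, ch M B * ch M A := by
  rw [Finset.prod_one_add]
  refine Finset.sum_congr rfl fun M _ => ?_
  unfold ch
  rw [Finset.prod_mul_distrib]

lemma sum_flip (i : E) (F : Finset E → ℚ) : ∑ A : Finset E, F (flip i A) = ∑ A : Finset E, F A := by
  refine Finset.sum_bij' (fun A _ => flip i A) (fun A _ => flip i A) (by simp) (by simp)
    (fun A _ => flip_flip i A) (fun A _ => flip_flip i A) (fun A _ => rfl)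

lemma fc_flip (g : Finset E → ℚ) (i : E) (K : Finset E) :
    fc (fun A => g (flip i A)) K = (if i ∈ K then -1 else 1) * fc g K := by
  unfold fc
  rw [← sum_flip i (fun A => g (flip i A) * ch K A), Finset.mul_sum]
  refine Finset.sum_congr rfl fun A _ => ?_
  rw [flip_flip, ch_flip]
  ring

/-- Fourier inversion. -/
lemma eq_zero_of_fc (g : Finset E → ℚ) (h : ∀ K, fc g K = 0) : g = 0 := by
  funext B
  have h1 : ∑ A : Finset E, g A * ∏ j : E, (1 + sg B j * sg A j) = 0 := by
    simp_rw [prod_expand, Finset.mul_sum]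
    rw [Finset.sum_comm]
    refine Finset.sum_eq_zero fun M _ => ?_
    have := h M
    unfold fc at this
    calc ∑ A : Finset E, g A * (ch M B * ch M A) = ch M B * ∑ A : Finset E, g A * ch M A := by
          rw [Finset.mul_sum]; refine Finset.sum_congr rfl fun A _ => by ring
      _ = 0 := by rw [this, mul_zero]
  rw [Finset.sum_eq_single B] at h1
  · have h2 : ∏ j : E, (1 + sg B j * sg B j) ≠ 0 := by
      refine Finset.prod_ne_zero_iff.mpr fun j _ => ?_
      rw [sg_mul_self]; norm_num
    simpa [h2] using h1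
  · intro A _ hA
    obtain ⟨j, hj⟩ : ∃ j, ¬ (j ∈ A ↔ j ∈ B) := by
      by_contra hcon
      push Not at hcon
      exact hA (Finset.ext hcon)
    have : (1 + sg B j * sg A j) = 0 := by
      unfold sg
      by_cases h1 : j ∈ A <;> by_cases h2 : j ∈ B <;> simp_all
    rw [Finset.prod_eq_zero (Finset.mem_univ j) this, mul_zero]
  · simp

/-- A family of cube points that shatters no set of size `r + 1`. -/
def VC (T : Set (Finset E)) (r : ℕ) : Prop :=
  ∀ C : Finset E, C.card = r + 1 → ∃ B : Finset E, ∀ A ∈ T, ∃ j ∈ C, ¬ (j ∈ A ↔ j ∈ B)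

/-- Linear algebra form of the Sauer-Shelah lemma. -/
lemma factA {T : Set (Finset E)} {r : ℕ} (hT : VC T r) (h : Finset E → ℚ)
    (hs : ∀ A, h A ≠ 0 → A ∈ T) (h0 : ∀ K : Finset E, K.card ≤ r → fc h K = 0) : h = 0 := by
  apply eq_zero_of_fc
  intro K
  induction hk : K.card using Nat.strong_induction_on generalizing K with
  | _ k ih =>
    by_cases hle : K.card ≤ r
    · exact h0 K hle
    obtain ⟨C, hCK, hC⟩ := Finset.exists_subset_card_eq (s := K) (n := r + 1) (by omega)
    obtain ⟨B, hB⟩ := hT C hC
    have h1 : ∑ A : Finset E, h A * ch (K \ C) A * ∏ j ∈ C, (1 + sg B j * sg A j) = 0 := by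
      refine Finset.sum_eq_zero fun A _ => ?_
      by_cases hA : h A = 0
      · simp [hA]
      obtain ⟨j, hjC, hj⟩ := hB A (hs A hA)
      have : (1 + sg B j * sg A j) = 0 := by
        unfold sg
        by_cases h1 : j ∈ A <;> by_cases h2 : j ∈ B <;> simp_all
      rw [Finset.prod_eq_zero hjC this, mul_zero]
    simp_rw [prod_expand, Finset.mul_sum] at h1
    rw [Finset.sum_comm] at h1
    have h2 : ∀ M ∈ C.powerset, ∑ A : Finset E, h A * ch (K \ C) A * (ch M B * ch M A)
        = ch M B * fc h ((K \ C) ∪ M) := by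
      intro M hM
      have hd : Disjoint (K \ C) M :=
        Finset.disjoint_of_subset_right (Finset.mem_powerset.mp hM) Finset.sdiff_disjoint
      unfold fc
      rw [Finset.mul_sum]
      refine Finset.sum_congr rfl fun A _ => ?_
      rw [ch_union _ _ _ hd]; ring
    rw [Finset.sum_congr rfl h2, Finset.sum_eq_single C] at h1
    · rw [Finset.sdiff_union_of_subset hCK] at h1
      exact (mul_eq_zero.mp h1).resolve_left (ch_ne_zero _ _)
    · intro M hM hne
      have hsub : M ⊂ C := Finset.ssubset_iff_subset_ne.mpr ⟨Finset.mem_powerset.mp hM, hne⟩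
      have hlt : ((K \ C) ∪ M).card < k := by
        have h3 := Finset.card_union_le (K \ C) M
        have h4 := Finset.card_lt_card hsub
        have h5 := Finset.card_sdiff_add_card_eq_card hCK
        omega
      rw [ih _ hlt _ rfl, mul_zero]
    · simp

lemma fc_add (g h : Finset E → ℚ) (K : Finset E) :
    fc (fun A => g A + h A) K = fc g K + fc h K := by
  unfold fc; simp_rw [add_mul]; rw [Finset.sum_add_distrib]

lemma fc_sub (g h : Finset E → ℚ) (K : Finset E) :
    fc (fun A => g A - h A) K = fc g K - fc h K := by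
  unfold fc; simp_rw [sub_mul]; rw [Finset.sum_sub_distrib]

lemma fc_smul (c : ℚ) (g : Finset E → ℚ) (K : Finset E) :
    fc (fun A => c * g A) K = c * fc g K := by
  unfold fc; rw [Finset.mul_sum]; refine Finset.sum_congr rfl fun A _ => by ring

lemma fc_sum (g : E → Finset E → ℚ) (K : Finset E) :
    fc (fun A => ∑ i, g i A) K = ∑ i, fc (g i) K := by
  unfold fc; simp_rw [Finset.sum_mul]; rw [Finset.sum_comm]

omit [Fintype E] in
lemma ch_symmDiff (K M A : Finset E) : ch (symmDiff K M) A = ch K A * ch M A := by
  have h1 : ch K A = ch (K \ M) A * ch (K ∩ M) A := by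
    rw [← ch_union _ _ _ (Finset.disjoint_sdiff_inter K M), Finset.sdiff_union_inter]
  have h2 : ch M A = ch (M \ K) A * ch (K ∩ M) A := by
    rw [Finset.inter_comm, ← ch_union _ _ _ (Finset.disjoint_sdiff_inter M K),
      Finset.sdiff_union_inter]
  rw [symmDiff_def, Finset.sup_eq_union, ch_union _ _ _ disjoint_sdiff_sdiff, h1, h2]
  have := ch_mul_self (K ∩ M) A
  calc ch (K \ M) A * ch (M \ K) A = ch (K \ M) A * ch (M \ K) A * 1 := by ring
    _ = _ := by rw [← this]; ring

lemma fc_mul_ch (g : Finset E → ℚ) (M K : Finset E) :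
    fc (fun A => ch M A * g A) K = fc g (symmDiff K M) := by
  unfold fc
  refine Finset.sum_congr rfl fun A _ => ?_
  rw [ch_symmDiff]; ring

/-- The core lemma. -/
theorem core {T : Set (Finset E)} {r : ℕ} (hT : VC T r) (hr : 2 ≤ r)
    (hn : 2 * r - 1 ≤ Fintype.card E) (g : Finset E → ℚ)
    (hs : ∀ A, g A ≠ 0 → A ∈ T ∧ ∀ i, flip i A ∈ T)
    (h0 : ∀ K : Finset E, K.card ≤ r → K.card ≠ r - 1 → fc g K = 0) : g = 0 := by
  have hsD : ∀ i A, g A - g (flip i A) ≠ 0 → A ∈ T := by
    intro i A hA
    by_cases h1 : g A = 0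
    · have h2 : g (flip i A) ≠ 0 := by
        intro h2; apply hA; rw [h1, h2]; ring
      have := (hs _ h2).2 i
      rwa [flip_flip] at this
    · exact (hs A h1).1
  have hD : ∀ i K, fc (fun A => g A - g (flip i A)) K = if i ∈ K then 2 * fc g K else 0 := by
    intro i K
    rw [fc_sub, fc_flip]
    split_ifs <;> ring
  -- step 1: pure degree
  have hpure : ∀ K : Finset E, K.card ≠ r - 1 → fc g K = 0 := by
    have hc : ∀ K : Finset E,
        fc (fun A => (∑ i, (g A - g (flip i A))) - (2 * ((r : ℚ) - 1)) * g A) K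
          = 2 * ((K.card : ℚ) - ((r : ℚ) - 1)) * fc g K := by
      intro K
      rw [fc_sub, fc_smul, fc_sum (fun i A => g A - g (flip i A))]
      simp_rw [hD]
      rw [Finset.sum_ite_mem, Finset.univ_inter, Finset.sum_const, nsmul_eq_mul]
      ring
    have hz := factA hT (fun A => (∑ i, (g A - g (flip i A))) - (2 * ((r : ℚ) - 1)) * g A)
      (by
        intro A hA
        by_contra hAT
        apply hA
        have h1 : g A = 0 := by
          by_contra h1; exact hAT (hs A h1).1
        have h2 : ∀ i, g A - g (flip i A) = 0 := by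
          intro i; by_contra h2; exact hAT (hsD i A h2)
        rw [Finset.sum_eq_zero fun i _ => h2 i, h1]; ring)
      (by
        intro K hK
        rw [hc]
        by_cases hK1 : K.card = r - 1
        · have : (K.card : ℚ) = (r : ℚ) - 1 := by
            rw [hK1, Nat.cast_sub (by omega)]; simp
          rw [this]; ring
        · rw [h0 K hK hK1]; ring)
    intro K hK
    have h1 := hc K
    rw [hz] at h1
    have h2 : fc (0 : Finset E → ℚ) K = 0 := by unfold fc; simp
    rw [h2] at h1
    have h3 : (K.card : ℚ) - ((r : ℚ) - 1) ≠ 0 := by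
      intro h3
      apply hK
      have : (K.card : ℚ) = ((r - 1 : ℕ) : ℚ) := by
        rw [Nat.cast_sub (by omega)]; push_cast; linarith
      exact_mod_cast this
    have h4 : 2 * ((K.card : ℚ) - ((r : ℚ) - 1)) ≠ 0 := mul_ne_zero (by norm_num) h3
    exact (mul_eq_zero.mp h1.symm).resolve_left h4
  -- step 2: the complement trick
  apply eq_zero_of_fc
  intro K
  by_cases hK : K.card = r - 1
  swap
  · exact hpure K hK
  obtain ⟨i, hi⟩ : K.Nonempty := Finset.card_pos.mp (by omega)
  have hz := factA hT (fun A => ch ({i}ᶜ) A * (g A - g (flip i A)))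
    (by
      intro A hA
      exact hsD i A (right_ne_zero_of_mul hA))
    (by
      intro M hM
      rw [fc_mul_ch, hD]
      split_ifs with hiM
      · rw [hpure, mul_zero]
        have hiM' : i ∈ M := by
          rw [Finset.mem_symmDiff] at hiM
          simpa using hiM
        have he : symmDiff M ({i}ᶜ) = insert i (Mᶜ) := by
          ext j
          rw [Finset.mem_symmDiff]
          by_cases hj : j = i
          · subst hj; simp [hiM']
          · simp [hj]
        rw [he, Finset.card_insert_of_notMem (by simpa using hiM'), Finset.card_compl]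
        omega
      · rfl)
  have h1 := fc_mul_ch (fun A => g A - g (flip i A)) ({i}ᶜ) (symmDiff K ({i}ᶜ))
  rw [symmDiff_symmDiff_cancel_right, hD, if_pos hi] at h1
  have h2 : (fun A => ch ({i}ᶜ) A * (g A - g (flip i A))) = 0 := hz
  rw [h2] at h1
  have h3 : fc (0 : Finset E → ℚ) (symmDiff K ({i}ᶜ)) = 0 := by unfold fc; simp
  rw [h3] at h1
  linarith

end Pool.Agent.P.MP_f434f5_co
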