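import Mathlib
import Pool.Agent.P.MP_f434f5_co.Defs
import Pool.Agent.P.MP_f434f5_co.Fourier

/-!
Proof of the Roudneff inequality.
-/

namespace Pool.Agent.P.MP_f434f5_co

open Finset

variable {E : Type*} [Fintype E] [DecidableEq E]

lemma sg_compl (A : Finset E) (j : E) : sg Aᶜ j = - sg A j := by
  unfold sg
  by_cases h : j ∈ A <;> simp [h]

lemma ch_compl (K A : Finset E) : ch K Aᶜ = (-1) ^ K.card * ch K A := by
  unfold ch
  simp_rw [sg_compl]
  rw [Finset.prod_neg]

lemma fc_compl (g : Finset E → ℚ) (K : Finset E) :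
    fc (fun A => g Aᶜ) K = (-1) ^ K.card * fc g K := by
  unfold fc
  rw [Finset.mul_sum]
  refine Finset.sum_bij' (fun A _ => Aᶜ) (fun A _ => Aᶜ) (by simp) (by simp)
    (fun A _ => compl_compl A) (fun A _ => compl_compl A) (fun A _ => ?_)
  rw [ch_compl]
  have : ((-1 : ℚ) ^ K.card) * (-1) ^ K.card = 1 := by
    rw [← mul_pow]; simp
  linear_combination (- (g Aᶜ * ch K A)) * this

/-- The small subsets avoiding a base point. -/
def small (e₀ : E) (m : ℕ) : Finset (Finset E) :=
  Finset.univ.filter fun K => e₀ ∉ K ∧ K.card < m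

lemma card_small (e₀ : E) (m : ℕ) :
    (small e₀ m).card = ∑ j ∈ range m, (Fintype.card E - 1).choose j := by
  have h : small e₀ m = (range m).biUnion fun j => powersetCard j (Finset.univ.erase e₀) := by
    ext K
    simp only [small, mem_filter, mem_univ, true_and, mem_biUnion, mem_range, mem_powersetCard]
    constructor
    · rintro ⟨h1, h2⟩
      refine ⟨K.card, h2, ?_, rfl⟩
      intro x hx
      rw [mem_erase]
      exact ⟨fun h => h1 (h ▸ hx), mem_univ _⟩
    · rintro ⟨j, hj, h1, h2⟩
      refine ⟨fun h => ?_, h2 ▸ hj⟩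
      have := h1 h
      simp at this
  rw [h, card_biUnion]
  · refine Finset.sum_congr rfl fun j _ => ?_
    rw [card_powersetCard, card_erase_of_mem (mem_univ _), card_univ]
  · intro i _ j _ hij
    rw [Function.onFun, Finset.disjoint_left]
    intro K h1 h2
    rw [mem_powersetCard] at h1 h2
    exact hij (h1.2.symm.trans h2.2)

/-- Upper bound for the interior of an antipodal family of bounded VC dimension. -/
theorem card_half_le {T : Set (Finset E)} {r : ℕ} (hT : VC T r) (hr : 3 ≤ r)
    (hn : 2 * r - 1 ≤ Fintype.card E) (U : Finset (Finset E))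
    (hU : ∀ A ∈ U, A ∈ T ∧ ∀ i, flip i A ∈ T) (hUc : ∀ A ∈ U, Aᶜ ∈ U) (e₀ : E) :
    (U.filter fun A => e₀ ∉ A).card ≤ (small e₀ (r - 2)).card := by
  classical
  set U' := U.filter fun A => e₀ ∉ A with hU'
  let ext : (U' → ℚ) → Finset E → ℚ := fun v A => if h : A ∈ U' then v ⟨A, h⟩ else 0
  let Φ : (U' → ℚ) →ₗ[ℚ] (small e₀ (r - 2) → ℚ) :=
    { toFun := fun v K => fc (ext v) K.1
      map_add' := by
        intro v w
        funext K
        have : ext (v + w) = fun A => ext v A + ext w A := by
          funext A; simp only [ext]; split_ifs <;> simp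
        simp only [this, fc_add, Pi.add_apply]
      map_smul' := by
        intro c v
        funext K
        have : ext (c • v) = fun A => c * ext v A := by
          funext A; simp only [ext]; split_ifs <;> simp
        simp only [this, fc_smul, Pi.smul_apply, smul_eq_mul, RingHom.id_apply] }
  have hinj : Function.Injective Φ := by
    rw [injective_iff_map_eq_zero]
    intro v hv
    set g := ext v with hg
    have hsupp : ∀ A, g A ≠ 0 → A ∈ U' := by
      intro A hA
      by_contra h
      apply hA
      simp only [hg, ext, dif_neg h]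
    have hk : ∀ K : Finset E, e₀ ∉ K → K.card < r - 2 → fc g K = 0 := by
      intro K h1 h2
      have hK : K ∈ small e₀ (r - 2) := by simp [small, h1, h2]
      exact congrFun hv ⟨K, hK⟩
    have herase : ∀ K : Finset E, fc g K = fc g (K.erase e₀) := by
      intro K
      unfold fc
      refine Finset.sum_congr rfl fun A _ => ?_
      by_cases hA : g A = 0
      · simp [hA]
      have h1 : e₀ ∉ A := (mem_filter.mp (hsupp A hA)).2
      congr 1
      unfold ch
      rw [Finset.prod_erase]
      simp [sg, h1]
    have hk' : ∀ K : Finset E, K.card < r - 2 → fc g K = 0 := by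
      intro K h2
      rw [herase]
      exact hk _ (by simp) (lt_of_le_of_lt (card_erase_le) h2)
    have hz := core hT (by omega) hn (fun A => g A + (-1) ^ (r - 1) * g Aᶜ)
      (by
        intro A hA
        apply hU
        by_cases h1 : g A = 0
        · have h2 : g Aᶜ ≠ 0 := by
            intro h2; apply hA; rw [h1, h2]; ring
          have := hUc _ (mem_filter.mp (hsupp _ h2)).1
          rwa [compl_compl] at this
        · exact (mem_filter.mp (hsupp _ h1)).1)
      (by
        intro K h1 h2
        rw [fc_add, fc_smul, fc_compl]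
        by_cases h3 : K.card < r - 2
        · rw [hk' K h3]; ring
        · obtain ⟨q, rfl⟩ : ∃ q, r = q + 2 := ⟨r - 2, by omega⟩
          have h4 : K.card = q ∨ K.card = q + 2 := by omega
          have h5 : ((-1 : ℚ) ^ q) * (-1) ^ q = 1 := by
            rw [← mul_pow]; simp
          have h6 : q + 2 - 1 = q + 1 := by omega
          rcases h4 with h4 | h4
          · rw [h4, h6, pow_succ]
            linear_combination (- fc g K) * h5
          · rw [h4, h6, pow_succ, pow_succ, pow_succ]
            linear_combination (- fc g K) * h5)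
    funext ⟨A, hA⟩
    have h1 := congrFun hz A
    have h2 : g Aᶜ = 0 := by
      by_contra h2
      have h3 := (mem_filter.mp (hsupp _ h2)).2
      have h4 := (mem_filter.mp hA).2
      exact h3 (by simpa using h4)
    simp only [h2, mul_zero, add_zero, Pi.zero_apply] at h1
    simp only [hg, ext, dif_pos hA] at h1
    simpa using h1
  have := LinearMap.finrank_le_finrank_of_injective hinj
  simpa using this

theorem card_le {T : Set (Finset E)} {r : ℕ} (hT : VC T r) (hr : 3 ≤ r)
    (hn : 2 * r - 1 ≤ Fintype.card E) (U : Finset (Finset E))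
    (hU : ∀ A ∈ U, A ∈ T ∧ ∀ i, flip i A ∈ T) (hUc : ∀ A ∈ U, Aᶜ ∈ U) :
    U.card ≤ 2 * ∑ j ∈ range (r - 2), (Fintype.card E - 1).choose j := by
  obtain ⟨e₀⟩ : Nonempty E := Fintype.card_pos_iff.mp (by omega)
  have h1 := card_half_le hT hr hn U hU hUc e₀
  rw [card_small] at h1
  have h2 : (U.filter fun A => ¬ (e₀ ∉ A)).card ≤ (U.filter fun A => e₀ ∉ A).card := by
    refine Finset.card_le_card_of_injOn (fun A => Aᶜ) ?_ ?_
    · intro A hA
      rw [mem_coe, mem_filter] at hA ⊢
      exact ⟨hUc A hA.1, by simpa using hA.2⟩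
    · intro A _ B _ h
      exact compl_injective h
  have h3 := Finset.card_filter_add_card_filter_not (s := U) (fun A => e₀ ∉ A)
  omega

/-- The sign vector of a subset. -/
def sv (A : Finset E) : E → SignType := fun e => if e ∈ A then -1 else 1

omit [Fintype E] in
lemma neighborly_iff (L : Set (E → SignType)) (A : Finset E) :
    OneNeighborly (reorient A L) ↔
      sv A ∈ L ∧ ∀ e, ∃ X ∈ L, X e = 0 ∧ ∀ f, f ≠ e → X f = sv A f := by
  have key : ∀ (X : E → SignType) (f : E),
      ((if f ∈ A then - X f else X f) = 1 ↔ X f = sv A f) := by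
    intro X f
    unfold sv
    split_ifs
    · cases X f <;> decide
    · rfl
  unfold OneNeighborly reorient
  constructor
  · rintro ⟨⟨X, hX, h1⟩, h2⟩
    refine ⟨?_, fun e => ?_⟩
    · have : X = sv A := funext fun f => (key X f).mp (congrFun h1 f)
      exact this ▸ hX
    · obtain ⟨Y, ⟨Z, hZ, rfl⟩, h3, h4⟩ := h2 e
      refine ⟨Z, hZ, ?_, fun f hf => (key Z f).mp (h4 f hf)⟩
      simp only at h3
      split_ifs at h3
      · simpa using h3
      · exact h3
  · rintro ⟨h1, h2⟩
    refine ⟨⟨sv A, h1, funext fun f => (key _ f).mpr rfl⟩, fun e => ?_⟩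
    obtain ⟨X, hX, h3, h4⟩ := h2 e
    refine ⟨_, ⟨X, hX, rfl⟩, ?_, fun f hf => (key X f).mpr (h4 f hf)⟩
    simp [h3]

omit [Fintype E] in
/-- If all full sign patterns on `C` occur then all patterns with zeros occur. -/
lemma all_patterns {L : Set (E → SignType)} (hL : IsOM L) (C : Finset E)
    (hall : ∀ B : Finset E, ∃ X ∈ L, ∀ j ∈ C, X j = sv B j) (Z : Finset E) :
    ∀ B : Finset E, ∃ X ∈ L, ∀ j ∈ C, X j = if j ∈ Z then 0 else sv B j := by
  induction Z using Finset.induction_on with
  | empty => simpa using hall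
  | insert z Z hz ih =>
    intro B
    by_cases hzC : z ∈ C
    swap
    · obtain ⟨X, hX, h⟩ := ih B
      refine ⟨X, hX, fun j hj => ?_⟩
      have : j ≠ z := fun h => hzC (h ▸ hj)
      simp [h j hj, this]
    obtain ⟨X, hX, h1⟩ := ih (insert z B)
    obtain ⟨Y, hY, h2⟩ := ih (B.erase z)
    have hXz : X z = -1 := by simp [h1 z hzC, hz, sv]
    have hYz : Y z = 1 := by simp [h2 z hzC, hz, sv]
    obtain ⟨W, hW, h3, h4⟩ := hL.2.2.2 X hX Y hY z (by
      refine ⟨?_, ?_⟩
      · rw [hXz]; decide
      · rw [hXz, hYz])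
    refine ⟨W, hW, fun j hj => ?_⟩
    by_cases hjz : j = z
    · subst hjz; simp [h3]
    have hXY : X j = Y j := by
      rw [h1 j hj, h2 j hj]
      simp [sv, hjz]
    have hns : j ∉ sep X Y := by
      rintro ⟨h5, h6⟩
      rw [← hXY] at h6
      revert h5 h6
      cases X j <;> decide
    rw [h4 j hns]
    have : comp X Y j = X j := by
      unfold comp
      split_ifs with h
      · rw [← hXY]
      · rfl
    rw [this, h1 j hj]
    simp [sv, hjz]

omit [Fintype E] in
lemma vc_of_rank {L : Set (E → SignType)} (hL : IsOM L) {r : ℕ} (hr : HasRank L r) :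
    VC {A : Finset E | sv A ∈ L} r := by
  intro C hC
  by_contra hcon
  push Not at hcon
  have hall : ∀ B : Finset E, ∃ X ∈ L, ∀ j ∈ C, X j = sv B j := by
    intro B
    obtain ⟨A, hA, h⟩ := hcon B
    refine ⟨sv A, hA, fun j hj => ?_⟩
    unfold sv
    simp [h j hj]
  have hind : Indep L C := by
    intro e he
    obtain ⟨X, hX, h⟩ := all_patterns hL C hall (C.erase e) ∅
    refine ⟨X, hX, ?_, fun f hf hfe => ?_⟩
    · rw [h e he]; simp [sv]
    · rw [h f hf]; simp [hf, hfe]
  have := hr.2 ⟨C, hind, hC⟩
  omega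

theorem upper {L : Set (E → SignType)} (hL : IsOM L) {r : ℕ} (hrk : HasRank L r) (hr : 3 ≤ r)
    (hn : 2 * r - 1 ≤ Fintype.card E) :
    numNeighborly L ≤ 2 * ∑ j ∈ range (r - 2), (Fintype.card E - 1).choose j := by
  classical
  unfold numNeighborly
  rw [Set.ncard_eq_toFinset_card']
  have hneg : ∀ A : Finset E, sv Aᶜ = fun e => - sv A e := by
    intro A; funext e; unfold sv
    by_cases h : e ∈ A <;> simp [h]
  refine card_le (vc_of_rank hL hrk) hr hn _ ?_ ?_
  · intro A hA
    rw [Set.mem_toFinset, Set.mem_ofPred_eq, neighborly_iff] at hA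
    refine ⟨hA.1, fun i => ?_⟩
    obtain ⟨X, hX, h1, h2⟩ := hA.2 i
    have h3 := hL.2.2.1 X hX _ (hL.2.1 _ hA.1)
    have h4 : comp X (fun e => - sv A e) = sv (flip i A) := by
      funext f
      unfold comp
      by_cases hf : f = i
      · subst hf
        rw [if_pos h1]
        unfold sv
        by_cases h : f ∈ A <;> simp [h, mem_flip]
      · have h5 : X f ≠ 0 := by
          rw [h2 f hf]; unfold sv; split_ifs <;> decide
        rw [if_neg h5, h2 f hf]
        unfold sv
        simp [mem_flip, hf]
    rw [h4] at h3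
    exact h3
  · intro A hA
    rw [Set.mem_toFinset, Set.mem_ofPred_eq, neighborly_iff] at hA ⊢
    refine ⟨hneg A ▸ hL.2.1 _ hA.1, fun e => ?_⟩
    obtain ⟨X, hX, h1, h2⟩ := hA.2 e
    refine ⟨_, hL.2.1 X hX, by simp [h1], fun f hf => ?_⟩
    rw [hneg, h2 f hf]

open Polynomial in
lemma poly_mem {r n : ℕ} (p : ℝ[X]) (hp : p.natDegree < r) :
    (fun i : Fin n => SignType.sign (p.eval (i.val : ℝ))) ∈ alternating r n := by
  refine ⟨fun j => p.coeff j, ?_⟩
  funext i
  rw [Polynomial.eval_eq_sum_range' hp, Fin.sum_univ_eq_sum_range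
    (fun j => p.coeff j * (i.val : ℝ) ^ j) r]

/-- The subset attached to a sign and a set of sign change positions. -/
def altSet {n : ℕ} (b : Bool) (K : Finset (Fin n)) : Finset (Fin n) :=
  Finset.univ.filter fun i => (Odd (K.filter fun k => i < k).card ↔ b = false)

open Polynomial in
lemma sign_altPoly {n : ℕ} (K : Finset (Fin n)) (i : Fin n) :
    SignType.sign ((∏ k ∈ K, (X - C ((k.val : ℝ) - 1 / 2))).eval (i.val : ℝ))
      = (-1) ^ (K.filter fun k => i < k).card := by
  induction K using Finset.induction_on with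
  | empty => simp
  | insert a s ha ih =>
    rw [Finset.prod_insert ha, eval_mul, sign_mul, ih, Finset.filter_insert]
    split_ifs with h
    · rw [Finset.card_insert_of_notMem (by simp [ha]), pow_succ]
      have h1 : (i.val : ℝ) + 1 ≤ a.val := by exact_mod_cast h
      have : SignType.sign (eval (i.val : ℝ) (X - C ((a.val : ℝ) - 1 / 2))) = -1 := by
        apply sign_neg; simp; linarith
      rw [this, mul_comm]
    · have h1 : (a.val : ℝ) ≤ i.val := by exact_mod_cast (not_lt.mp h)
      have : SignType.sign (eval (i.val : ℝ) (X - C ((a.val : ℝ) - 1 / 2))) = 1 := by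
        apply sign_pos; simp; linarith
      rw [this, one_mul]

open Polynomial in
lemma altSet_neighborly {r n : ℕ} (b : Bool) (K : Finset (Fin n)) (hK : K.card < r - 2) :
    OneNeighborly (reorient (altSet b K) (alternating r n)) := by
  rw [neighborly_iff]
  set q : ℝ[X] := ∏ k ∈ K, (X - C ((k.val : ℝ) - 1 / 2)) with hq
  set p : ℝ[X] := C (if b then -1 else 1) * q with hp
  have hqd : q.natDegree = K.card := by
    rw [hq, Polynomial.natDegree_prod_of_monic _ _ fun k _ => monic_X_sub_C _]
    simp only [natDegree_X_sub_C, Finset.sum_const, smul_eq_mul, mul_one]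
  have hpd : p.natDegree ≤ K.card := by
    rw [← hqd]; exact natDegree_C_mul_le _ _
  have hs : ∀ i : Fin n, SignType.sign (p.eval (i.val : ℝ)) = sv (altSet b K) i := by
    intro i
    rw [hp, eval_mul, sign_mul, hq, sign_altPoly, eval_C]
    unfold sv altSet
    rcases Nat.even_or_odd (K.filter fun k => i < k).card with h | h
    · have h' := Nat.not_odd_iff_even.mpr h
      cases b <;> simp [h.neg_one_pow, h']
    · cases b <;> simp [h.neg_one_pow, h]
  refine ⟨?_, fun e => ?_⟩
  · have := poly_mem (n := n) p (r := r) (by omega)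
    rwa [funext hs] at this
  · refine ⟨_, poly_mem (n := n) (p * (X - C (e.val : ℝ)) ^ 2) (r := r) ?_, ?_, fun f hf => ?_⟩
    · have h1 := natDegree_mul_le (p := p) (q := (X - C (e.val : ℝ)) ^ 2)
      rw [natDegree_pow, natDegree_X_sub_C] at h1
      omega
    · simp
    · have h1 : (f.val : ℝ) - e.val ≠ 0 := by
        rw [sub_ne_zero]
        intro h
        exact hf (Fin.ext (by exact_mod_cast h))
      have h2 : SignType.sign (eval (f.val : ℝ) ((X - C (e.val : ℝ)) ^ 2)) = 1 := by
        apply sign_pos
        simp only [eval_pow, eval_sub, eval_X, eval_C]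
        positivity
      rw [eval_mul, sign_mul, h2, mul_one, hs]

lemma altSet_inj {n : ℕ} (b b' : Bool) (K K' : Finset (Fin (n + 1))) (h0 : (0 : Fin (n + 1)) ∉ K)
    (h0' : (0 : Fin (n + 1)) ∉ K') (h : altSet b K = altSet b' K') : b = b' ∧ K = K' := by
  have hmem : ∀ i : Fin (n + 1), ((Odd (K.filter fun k => i < k).card ↔ b = false) ↔
      (Odd (K'.filter fun k => i < k).card ↔ b' = false)) := by
    intro i
    have := Finset.ext_iff.mp h i
    simpa [altSet] using this
  have hlast : ∀ M : Finset (Fin (n + 1)), (M.filter fun k => Fin.last n < k) = ∅ := by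
    intro M
    rw [Finset.filter_eq_empty_iff]
    intro k _
    exact not_lt.mpr (Fin.le_last k)
  have hb : b = b' := by
    have := hmem (Fin.last n)
    rw [hlast, hlast] at this
    cases b <;> cases b' <;> simp_all
  subst hb
  refine ⟨rfl, ?_⟩
  have hodd : ∀ i : Fin (n + 1), (Odd (K.filter fun k => i < k).card ↔
      Odd (K'.filter fun k => i < k).card) := by
    intro i
    have := hmem i
    tauto
  have hstep : ∀ (M : Finset (Fin (n + 1))) (i : Fin n),
      (M.filter fun k => i.castSucc < k).card
        = (M.filter fun k => i.succ < k).card + if i.succ ∈ M then 1 else 0 := by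
    intro M i
    split_ifs with hi
    · rw [← Finset.card_insert_of_notMem (a := i.succ) (by simp)]
      congr 1
      ext k
      simp only [mem_filter, mem_insert]
      constructor
      · rintro ⟨h1, h2⟩
        by_cases hk : k = i.succ
        · exact Or.inl hk
        · refine Or.inr ⟨h1, ?_⟩
          rw [Fin.lt_def] at h2 ⊢
          have : k.val ≠ i.succ.val := fun h => hk (Fin.ext h)
          simp at h2 this ⊢
          omega
      · rintro (rfl | ⟨h1, h2⟩)
        · exact ⟨hi, Fin.castSucc_lt_succ⟩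
        · exact ⟨h1, lt_trans Fin.castSucc_lt_succ h2⟩
    · rw [add_zero]
      congr 1
      ext k
      simp only [mem_filter]
      constructor
      · rintro ⟨h1, h2⟩
        refine ⟨h1, ?_⟩
        rw [Fin.lt_def] at h2 ⊢
        have : k.val ≠ i.succ.val := fun h => hi (Fin.ext h ▸ h1)
        simp at h2 this ⊢
        omega
      · rintro ⟨h1, h2⟩
        exact ⟨h1, lt_trans Fin.castSucc_lt_succ h2⟩
  ext k
  induction k using Fin.cases with
  | zero => simp [h0, h0']
  | succ i =>
    have h1 := hodd i.castSucc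
    have h2 := hodd i.succ
    rw [hstep, hstep] at h1
    by_cases h3 : i.succ ∈ K <;> by_cases h4 : i.succ ∈ K' <;>
      simp only [h3, h4, Nat.odd_add_one, if_true, if_false, add_zero] at h1 ⊢ <;> tauto

theorem lower {r n : ℕ} (hn : 1 ≤ n) :
    2 * ∑ j ∈ range (r - 2), (n - 1).choose j ≤ numNeighborly (alternating r n) := by
  classical
  obtain ⟨m, rfl⟩ : ∃ m, n = m + 1 := ⟨n - 1, by omega⟩
  unfold numNeighborly
  rw [Set.ncard_eq_toFinset_card']
  have h1 := card_small (0 : Fin (m + 1)) (r - 2)
  rw [Fintype.card_fin] at h1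
  rw [← h1]
  have h2 : ((Finset.univ : Finset Bool) ×ˢ small (0 : Fin (m + 1)) (r - 2)).card
      = 2 * (small (0 : Fin (m + 1)) (r - 2)).card := by
    rw [Finset.card_product]; simp
  rw [← h2]
  refine Finset.card_le_card_of_injOn (fun q => altSet q.1 q.2) ?_ ?_
  · rintro ⟨b, K⟩ hq
    rw [mem_coe, Finset.mem_product] at hq
    have h3 := (mem_filter.mp hq.2).2.2
    rw [mem_coe, Set.mem_toFinset, Set.mem_ofPred_eq]
    exact altSet_neighborly b K h3
  · rintro ⟨b, K⟩ hq ⟨b', K'⟩ hq' h
    rw [mem_coe, Finset.mem_product] at hq hq'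
    obtain ⟨h3, h4⟩ := altSet_inj b b' K K' (mem_filter.mp hq.2).2.1 (mem_filter.mp hq'.2).2.1 h
    rw [h3, h4]

end Pool.Agent.P.MP_f434f5_co
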